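import Pool.Agent.H.MP_a9eb04_an.A
import Pool.Agent.H.MP_a9eb04_an.B

set_option autoImplicit false

namespace Pool.Agent.Results.MP_a9eb04_an.Const
open scoped ENNReal NNReal Topology
open MeasureTheory Set Filter Pool.Agent.H.MP_a9eb04_an

variable {V : Type} [PartialOrder V]

/-- locally finite rooted tree, as the order on its edges (= vertices other than the pre-root) -/
def IsTree (V : Type) [PartialOrder V] : Prop :=
  ∀ x : V, (Iic x).Finite ∧ IsChain (· ≤ ·) (Iic x) ∧ {y | x ⋖ y}.Finite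

/-- points of the closed tree: geodesics from the pre-root, as their sets of edges -/
def Pt (V : Type) [PartialOrder V] : Type := {c : Set V // IsChain (· ≤ ·) c ∧ IsLowerSet c}

/-- successor set -/
def S (a : V) : Set (Pt V) := {x | a ∈ x.1}

instance : TopologicalSpace (Pt V) :=
  .generateFrom (range S ∪ {s | ∃ x : Pt V, x.1.Finite ∧ s = {x}})

instance : MeasurableSpace (Pt V) := borel _

/-- Hardy operator -/
noncomputable def hop (φ : V → ℝ≥0) (x : Pt V) : ℝ≥0∞ := ∑' a : x.1, (φ a : ℝ≥0∞)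

/-- energy -/
noncomputable def en (p : ℝ) (κ φ : V → ℝ≥0) : ℝ≥0∞ := ∑' a, (φ a : ℝ≥0∞) ^ p * κ a

/-- best constant in the Hardy inequality -/
noncomputable def hardy (p : ℝ) (κ : V → ℝ≥0) (μ : Measure (Pt V)) : ℝ≥0∞ :=
  sInf {C | ∀ φ : V → ℝ≥0, ∫⁻ x, hop φ x ^ p ∂μ ≤ C * en p κ φ}

/-- capacity -/
noncomputable def cap (p : ℝ) (κ : V → ℝ≥0) (A : Set (Pt V)) : ℝ≥0∞ :=
  ⨅ (φ : V → ℝ≥0) (_ : ∀ x ∈ A, 1 ≤ hop φ x), en p κ φ

/-- isocapacitary constant -/
noncomputable def iso (p : ℝ) (κ : V → ℝ≥0) (μ : Measure (Pt V)) : ℝ≥0∞ :=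
  ⨆ F : Finset V, μ (⋃ a ∈ F, S a) / cap p κ (⋃ a ∈ F, S a)

/-- admissible constants -/
def Good (p : ℝ) (K : ℝ≥0∞) : Prop :=
  ∀ (V : Type) [PartialOrder V] [OrderBot V] [Countable V], IsTree V →
    ∀ (κ : V → ℝ≥0) (μ : Measure (Pt V)), hardy p κ μ ≤ K * iso p κ μ

theorem result (p : ℝ) (hp : 1 < p) :
    IsLeast {K | Good p K} (ENNReal.ofReal (p ^ p / (p - 1) ^ (p - 1))) := by
  have ms : ∀ {V : Type} [PartialOrder V] (a : V), MeasurableSet {x : Pt V | a ∈ x.1} :=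
    fun a => MeasurableSpace.measurableSet_generateFrom
      (TopologicalSpace.isOpen_generateFrom_of_mem (Or.inl ⟨a, rfl⟩))
  have p0 : 0 < p := by linarith
  have q0 : 0 < p - 1 := by linarith
  refine ⟨fun V _ _ _ _ κ μ => ?_, fun K hK => not_lt.1 fun h => ?_⟩
  · have C0 : ENNReal.ofReal (p ^ p / (p - 1) ^ (p - 1)) ≠ 0 := by
      rw [ne_eq, ENNReal.ofReal_eq_zero, not_le]; positivity
    rcases eq_or_ne (iso p κ μ) ⊤ with e | e
    · rw [e, ENNReal.mul_top C0]; exact le_top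
    refine sInf_le fun φ => ?_
    have := upper (fun x : Pt V => x.1) (fun x => x.2.1) (fun x => x.2.2) ms
      (Real.HolderConjugate.conjExponent hp) κ μ (iso p κ μ) (fun F ψ H => ?_) φ
    · refine this.trans_eq ?_
      rw [Real.conjExponent, Real.div_rpow p0.le q0.le, Real.rpow_sub_one p0.ne', ← mul_div_assoc,
        mul_div_cancel₀ _ p0.ne']
      rfl
    · have a : cap p κ (⋃ a ∈ F, S a) ≤ en p κ ψ := iInf₂_le ψ H
      have b : cap p κ (⋃ a ∈ F, S a) ≠ ⊤ := by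
        classical
        refine ne_top_of_le_ne_top ?_ (iInf₂_le (fun a => if a = ⊥ then 1 else 0) fun x hx => ?_)
        · rw [en, tsum_eq_single ⊥ fun a ha => by simp [ha, p0]]
          simp
        · obtain ⟨a, -, ha⟩ := mem_iUnion₂.1 hx
          refine le_trans ?_ (ENNReal.le_tsum (⟨⊥, x.2.2 bot_le ha⟩ : x.1))
          simp
      exact ((ENNReal.div_le_iff_le_mul (Or.inr e) (Or.inl b)).1
        (le_iSup (fun F : Finset V => μ (⋃ a ∈ F, S a) / cap p κ (⋃ a ∈ F, S a)) F)).trans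
        (mul_le_mul_right a _)
  · obtain ⟨k, k0, h1, h2⟩ := ENNReal.lt_iff_exists_real_btwn.1 h
    refine absurd (ENNReal.ofReal_le_ofReal (lim hp k0 fun t ht => ?_)) (not_le.2 h2)
    obtain ⟨κ, μ, a, b⟩ := ex (fun x : Pt ℕ => x.1) (fun x => x.2.2) ms
      (fun n => ⟨Iic n, isChain_of_trichotomous _, isLowerSet_Iic n⟩) (fun _ => rfl) hp ht
    have i1 : iso p κ μ ≤ 1 := iSup_le fun F => ENNReal.div_le_of_le_mul (by
      rw [one_mul]; exact le_iInf₂ fun ψ H => a F ψ H)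
    have := hK ℕ (fun x => ⟨finite_Iic x, isChain_of_trichotomous _,
      (finite_singleton (x + 1)).subset fun y hy => (Nat.covBy_iff_add_one_eq.1 hy).symm⟩) κ μ
    obtain ⟨C, c1, c2⟩ := sInf_lt_iff.1 ((this.trans (mul_le_of_le_one_right' i1)).trans_lt h1)
    exact b k k0 fun φ => (c1 φ).trans (mul_le_mul_left c2.le _)

end Pool.Agent.Results.MP_a9eb04_an.Const
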